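import Pool.Agent.H.MP_5fce70_co.A

set_option autoImplicit false

namespace Pool.Agent.Results.MP_5fce70_co.Yes

open Projectivization Module
open scoped LinearAlgebra.Projectivization

variable {K : Type} [Field K] [Algebra (ZMod 2) K]

/-- φ is a semilinear bijection. -/
def Semi (K : Type) [Field K] {M : Type} [AddCommGroup M] [Module K M] (φ : M ≃+ M) : Prop :=
  ∃ σ : K ≃+* K, ∀ (a : K) (x : M), φ (a • x) = σ a • φ x

/-- The linear set L_U in the plane. -/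
def L (U : Submodule (ZMod 2) ((K × K) × K)) : Set (ℙ K ((K × K) × K)) :=
  {P | ∃ u hu, u ∈ U ∧ P = mk K u hu}

/-- The weight of the point spanned by w. -/
noncomputable def wt (U : Submodule (ZMod 2) (K × K)) (w : K × K) : ℕ :=
  finrank (ZMod 2) ↥(U ⊓ (K ∙ w).restrictScalars (ZMod 2))

def Club (n i : ℕ) (U : Submodule (ZMod 2) (K × K)) : Prop :=
  finrank (ZMod 2) U = n ∧ 1 ≤ i ∧ ∃ w ≠ 0, wt U w = i ∧ ∀ u ∈ U, u ∉ K ∙ w → wt U u = 1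

/-- The line X_2 = 0. -/
def ell : Set (ℙ K ((K × K) × K)) := {P | P.rep.2 = 0}

def up (U : Submodule (ZMod 2) (K × K)) : Submodule (ZMod 2) ((K × K) × K) :=
  U.map (LinearMap.inl (ZMod 2) (K × K) K)

def arc (U : Submodule (ZMod 2) (K × K)) (v : (K × K) × K) : Set (ℙ K ((K × K) × K)) :=
  (L (up U ⊔ (ZMod 2) ∙ v) \ ell) ∪ (ell \ L (up U))

def GLEq (U₁ U₂ : Submodule (ZMod 2) (K × K)) : Prop :=
  ∃ ψ : K × K ≃+ K × K, Semi K ψ ∧ ∀ w, w ∈ U₁ ↔ ψ w ∈ U₂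

def PGLEq (A₁ A₂ : Set (ℙ K ((K × K) × K))) : Prop :=
  ∃ φ : (K × K) × K ≃+ (K × K) × K, Semi K φ ∧
    ∀ x (hx : x ≠ 0) (hy : φ x ≠ 0), mk K x hx ∈ A₁ ↔ mk K (φ x) hy ∈ A₂

open Pool.Agent.H.MP_5fce70_co

theorem mem_L (S : Submodule (ZMod 2) ((K × K) × K)) (x : (K × K) × K) (hx : x ≠ 0) :
    mk K x hx ∈ L S ↔ ∃ a : K, ∃ y ∈ S, x = a • y := by
  constructor
  · rintro ⟨u, hu, h1, h2⟩
    obtain ⟨a, e⟩ := (mk_eq_mk_iff' K _ _ _ _).1 h2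
    exact ⟨a, u, h1, e.symm⟩
  · rintro ⟨a, y, h1, e⟩
    exact ⟨y, fun h => hx (by simp [e, h]), h1, (mk_eq_mk_iff' K _ _ _ _).2 ⟨a, e.symm⟩⟩

theorem mem_arc (U : Submodule (ZMod 2) (K × K)) (v x : (K × K) × K) (hx : x ≠ 0) :
    mk K x hx ∈ arc U v ↔ C U.toAddSubgroup v x := by
  have e : mk K x hx ∈ ell ↔ x.2 = 0 := by
    obtain ⟨a, ha⟩ := exists_smul_eq_mk_rep K x hx
    simp [ell, ← ha, Units.smul_def]
  simp only [arc, Set.mem_union, Set.mem_sdiff, e, mem_L, C, Submodule.mem_toAddSubgroup]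
  refine or_congr ⟨?_, ?_⟩ (and_congr_right fun h => ⟨fun h1 a u hu e => h1 ⟨a, (u, 0), ⟨u, hu, rfl⟩,
    Prod.ext e (by simp [h])⟩, ?_⟩)
  · rintro ⟨⟨a, y, hy, rfl⟩, h⟩
    obtain ⟨_, ⟨u, hu, rfl⟩, z, hz, rfl⟩ := Submodule.mem_sup.1 hy
    obtain ⟨c, rfl⟩ := Submodule.mem_span_singleton.1 hz
    refine ⟨h, a, u, hu, ?_⟩
    have : c = 0 ∨ c = 1 := (by decide : ∀ c : ZMod 2, c = 0 ∨ c = 1) c
    rcases this with rfl | rfl
    · simp at h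
    · simp [add_comm]
  · rintro ⟨h, a, u, hu, rfl⟩
    exact ⟨⟨a, _, Submodule.mem_sup.2 ⟨(u, 0), ⟨u, hu, rfl⟩, v, Submodule.mem_span_singleton_self v,
      add_comm _ _⟩, rfl⟩, h⟩
  · rintro h1 ⟨a, _, ⟨u, hu, rfl⟩, rfl⟩
    exact h1 a u hu rfl

variable [Fintype K] {n i : ℕ}

theorem Club.card {U : Submodule (ZMod 2) (K × K)} (hK : Fintype.card K = 2 ^ n) (h : Club n i U) :
    Nat.card U.toAddSubgroup = Fintype.card K := by
  have := Module.natCard_eq_pow_finrank (K := ZMod 2) (V := U)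
  rw [Nat.card_zmod, h.1] at this
  rw [hK]
  exact this

omit [Fintype K] in
theorem Club.sp {U : Submodule (ZMod 2) (K × K)} (h : Club n i U) (hi : i ≠ n) :
    ∃ p ∈ U, ∃ q ∈ U, Sp p q := by
  obtain ⟨h1, h2, w, -, h3, -⟩ := h
  obtain ⟨p, ⟨p1, p2⟩, p0⟩ := Submodule.exists_mem_ne_zero_of_ne_bot
    (p := U ⊓ (K ∙ w).restrictScalars (ZMod 2)) fun e => by
      rw [wt, e, finrank_bot] at h3; omega
  obtain ⟨q, q1, q2⟩ := SetLike.not_le_iff_exists.1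
    (show ¬ U ≤ (K ∙ w).restrictScalars (ZMod 2) from fun e => by
      rw [wt, inf_eq_left.2 e] at h3; omega)
  exact ⟨p, p1, q, q1, Pool.Agent.H.MP_5fce70_co.sp p0 fun a e =>
    q2 (e ▸ (K ∙ w).smul_mem a p2)⟩

theorem Club.top {U : Submodule (ZMod 2) (K × K)} (hK : Fintype.card K = 2 ^ n) (h : Club n n U) :
    ∃ w ≠ 0, ∀ x, x ∈ U ↔ ∃ a : K, a • w = x := by
  have hc := h.card hK
  obtain ⟨h1, -, w, w0, h3, -⟩ := h
  have e := Submodule.eq_of_le_of_finrank_eq inf_le_left (h3.trans h1.symm)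
  have e1 : ∀ x ∈ U, ∃ a : K, a • w = x := fun x hx =>
    Submodule.mem_span_singleton.1 (e.symm ▸ hx : x ∈ U ⊓ _).2
  choose! f hf using e1
  refine ⟨w, w0, fun x => ⟨fun hx => ⟨_, hf x hx⟩, ?_⟩⟩
  rintro ⟨a, rfl⟩
  obtain ⟨u, hu⟩ := ((Nat.bijective_iff_injective_and_card fun u : U.toAddSubgroup => f u).2
    ⟨fun u u' e => Subtype.ext (by rw [← hf u u.2, ← hf u' u'.2]; exact congrArg (· • w) e),
      hc.trans Nat.card_eq_fintype_card.symm⟩).2 a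
  rw [← hu, hf u u.2]
  exact u.2

theorem result (n i : ℕ) (hK : Fintype.card K = 2 ^ n) (U₁ U₂ : Submodule (ZMod 2) (K × K))
    (h₁ : Club n i U₁) (h₂ : Club n i U₂) (hU : ¬ GLEq U₁ U₂) (v₁ v₂ : (K × K) × K)
    (hv₁ : v₁ ∉ Submodule.span K (up U₁ : Set ((K × K) × K)))
    (hv₂ : v₂ ∉ Submodule.span K (up U₂ : Set ((K × K) × K))) :
    ¬ PGLEq (arc U₁ v₁) (arc U₂ v₂) := by
  rintro ⟨φ, ⟨σ, hφ⟩, hA⟩
  apply hU
  by_cases hi : i = n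
  · subst hi
    obtain ⟨w, w0, hw⟩ := h₁.top hK
    obtain ⟨z, z0, hz⟩ := h₂.top hK
    obtain ⟨ψ, rfl⟩ := mv w0 z0
    refine ⟨ψ.toAddEquiv, ⟨RingEquiv.refl K, ψ.map_smul⟩, fun x => ?_⟩
    rw [hw, hz]
    exact exists_congr fun a => by rw [← ψ.map_smul]; exact ψ.injective.eq_iff.symm
  have adm : ∀ U : Submodule (ZMod 2) (K × K), Club n i U → ∀ v : (K × K) × K,
      v ∉ Submodule.span K (up U : Set ((K × K) × K)) → v.2 ≠ 0 := fun U h v hv e => hv <| by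
    obtain ⟨p, hp, q, hq, hs⟩ := h.sp hi
    obtain ⟨a, b, e'⟩ := hs v.1
    rw [show v = a • (p, 0) + b • (q, 0) from Prod.ext e' (by simp [e])]
    exact add_mem (Submodule.smul_mem _ _ (Submodule.subset_span ⟨p, hp, rfl⟩))
      (Submodule.smul_mem _ _ (Submodule.subset_span ⟨q, hq, rfl⟩))
  obtain ⟨p, hp, q, hq, hs⟩ := h₂.sp hi
  have c0 : ∀ (U : AddSubgroup (K × K)) v, ¬ C U v 0 := fun U v h =>
    h.elim (fun h => h.1 rfl) fun h => h.2 0 0 U.zero_mem (by simp)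
  obtain ⟨σ, ψ, h⟩ := core (adm _ h₁ _ hv₁) (adm _ h₂ _ hv₂) (h₁.card hK) (h₂.card hK) hp hq hs hφ
    fun x => by
      by_cases hx : x = 0
      · simp [hx, c0]
      · rw [← mem_arc _ _ _ hx, ← mem_arc _ _ _ ((map_ne_zero_iff φ φ.injective).2 hx)]
        exact hA _ _ _
  exact ⟨ψ, ⟨σ, h.1⟩, h.2⟩

end Pool.Agent.Results.MP_5fce70_co.Yes
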